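import Mathlib
import Pool.Agent.KS6_62.Ess.Main2

/-!
# Essential and influential edges: the comparison fails in every direction

The definitions (`Q292.Ess.G`, `W`, `law`, `SemiEssential`, `VeryInfluential`, ...) are those of the
library: `G d n` is the box graph, `W d n` its edge set, `law d n p` the product measure, and the
four events are the sets `Essential`, `SemiEssential`, `Influential`, `VeryInfluential` of
configurations.
-/

set_option autoImplicit false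

namespace Pool.Agent.Results.MP_b09029_pr.EveryDirection

open Q292.Ess MeasureTheory ProbabilityTheory

/-- The statement of the conjecture for the parameters `d, a, b, p, v`: one constant `C` works in
the three inequalities for all `n ≥ 1` and all edges `j` of `G_n`. -/
def Comparable (d : ℕ) (a b : ℝ) (p : unitInterval) (v : Fin d → ℤ) : Prop :=
  ∃ C : ℝ, ∀ n : ℕ, 1 ≤ n → ∀ j : W d n,
    (law d n p).real (Influential a b v j) ≤ C * (law d n p).real (VeryInfluential a b v j) ∧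
    (law d n p).real (SemiEssential a b v j) ≤ C * (law d n p).real (Essential a b v j) ∧
    (law d n p).real (SemiEssential a b v j) ≤ C * (law d n p).real (VeryInfluential a b v j)

/-- Some edge of `G_n` lies on a geodesic with positive probability, but is never very
influential. -/
def Bad (d : ℕ) (a b : ℝ) (p : unitInterval) (v : Fin d → ℤ) (n : ℕ) : Prop :=
  ∃ j : W d n, 0 < (law d n p).real (SemiEssential a b v j) ∧
    (law d n p).real (VeryInfluential a b v j) = 0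

/-- Let `d ≥ 2`, `0 < a < b`, `0 < p < 1` and `v ≠ 0`, `‖v‖_∞ ≤ 2`.

1. If `b ≤ 3 a`, or if a coordinate of `v` vanishes and `(b - a) ‖v‖_∞ ≤ 4 a`, then infinitely many
   `n` are bad.
2. If `(b - a) (|v|₁ - 1) < 2 a |v|₁`, or if a coordinate of `v` vanishes and
   `(b - a) ‖v‖_∞ (|v|₁ - 1) < 4 a |v|₁`, or if `|v|₁ ≤ 2`, then some `n ≥ 1` is bad.
3. In all these cases the conjecture fails. -/
theorem result (d : ℕ) (a b : ℝ) (p : unitInterval) (v : Fin d → ℤ) (hd : 2 ≤ d) (ha : 0 < a)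
    (hab : a < b) (hp0 : 0 < (p : ℝ)) (hp1 : (p : ℝ) < 1) (hv : v ≠ 0) (hv2 : ∀ i, |v i| ≤ 2) :
    (b ≤ 3 * a ∨ ((∃ k, v k = 0) ∧ ∀ l, (b - a) * ((|v l| : ℤ) : ℝ) ≤ 4 * a) →
      ∀ N : ℕ, ∃ n ≥ N, Bad d a b p v n) ∧
    ((b - a) * (((∑ i, |v i| : ℤ) : ℝ) - 1) < 2 * a * ((∑ i, |v i| : ℤ) : ℝ) ∨
      ((∃ k, v k = 0) ∧ ∀ l, (b - a) * ((|v l| : ℤ) : ℝ) * (((∑ i, |v i| : ℤ) : ℝ) - 1) <
        4 * a * ((∑ i, |v i| : ℤ) : ℝ)) ∨
      ∑ i, |v i| ≤ 2 →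
      ∃ n ≥ 1, Bad d a b p v n) ∧
    (b ≤ 3 * a ∨ ((∃ k, v k = 0) ∧ ∀ l, (b - a) * ((|v l| : ℤ) : ℝ) ≤ 4 * a) ∨
      (b - a) * (((∑ i, |v i| : ℤ) : ℝ) - 1) < 2 * a * ((∑ i, |v i| : ℤ) : ℝ) ∨
      ((∃ k, v k = 0) ∧ ∀ l, (b - a) * ((|v l| : ℤ) : ℝ) * (((∑ i, |v i| : ℤ) : ℝ) - 1) <
        4 * a * ((∑ i, |v i| : ℤ) : ℝ)) ∨
      ∑ i, |v i| ≤ 2 →
      ¬ Comparable d a b p v) := by
  have h1 : b ≤ 3 * a ∨ ((∃ k, v k = 0) ∧ ∀ l, (b - a) * ((|v l| : ℤ) : ℝ) ≤ 4 * a) →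
      ∀ N : ℕ, ∃ n ≥ N, Bad d a b p v n := by
    rintro (h | ⟨hz, h⟩) N
    · exact Pool.Agent.KS6_62.Ess.every_direction hd ha hab h p hp0 hp1 hv hv2 N
    · exact Pool.Agent.KS6_62.Ess.zero_direction hd ha hab p hp0 hp1 hv hv2 hz h N
  have h2 : (b - a) * (((∑ i, |v i| : ℤ) : ℝ) - 1) < 2 * a * ((∑ i, |v i| : ℤ) : ℝ) ∨
      ((∃ k, v k = 0) ∧ ∀ l, (b - a) * ((|v l| : ℤ) : ℝ) * (((∑ i, |v i| : ℤ) : ℝ) - 1) <
        4 * a * ((∑ i, |v i| : ℤ) : ℝ)) ∨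
      ∑ i, |v i| ≤ 2 → ∃ n ≥ 1, Bad d a b p v n := by
    rintro (h | ⟨hz, h⟩ | h)
    · exact Pool.Agent.KS6_62.Ess.every_direction' hd ha hab p hp0 hp1 hv hv2 h
    · exact Pool.Agent.KS6_62.Ess.zero_direction' hd ha hab p hp0 hp1 hv hv2 hz h
    · exact Pool.Agent.KS6_62.Ess.short_direction hd ha hab p hp0 hp1 hv h
  refine ⟨h1, h2, fun h => ?_⟩
  obtain ⟨n, hn, j, h3, h4⟩ : ∃ n ≥ 1, Bad d a b p v n := by
    rcases h with h | h | h | h | h
    · exact h1 (Or.inl h) 1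
    · exact h1 (Or.inr h) 1
    · exact h2 (Or.inl h)
    · exact h2 (Or.inr (Or.inl h))
    · exact h2 (Or.inr (Or.inr h))
  rintro ⟨C, hC⟩
  have h5 := (hC n hn j).2.2
  rw [h4, mul_zero] at h5
  linarith

end Pool.Agent.Results.MP_b09029_pr.EveryDirection
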